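import Mathlib

set_option autoImplicit false
open Finset

/-!
Dense infinite C_h[g]-sequences (MP_d33b86_co, frozen statement S11655).

Idea: if a set has no nontrivial three-term arithmetic progression then translates
`X + k_i` lying in it are automatically pairwise disjoint.  We choose a random subset of an
infinite union of Behrend sets (one element from each part of an equipartition of each block),
bound the expected number of configurations block by block, delete, and pass to a limit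
along an ultrafilter.
-/

namespace Pool.Agent.CHG

/-- Counting choice functions: one element from each part. -/
lemma card_select {I : Type*} [Fintype I] [DecidableEq I] (G : I → Finset ℕ)
    (hG : ∀ x y n, n ∈ G x → n ∈ G y → x = y)
    (Q : ℕ → ℕ) (hQ : ∀ x, ∀ n ∈ G x, Q n ≤ (G x).card)
    (S : Finset ℕ) (hS : ∀ n ∈ S, ∃ x, n ∈ G x) :
    ((Fintype.piFinset G).filter (fun f => ∀ n ∈ S, ∃ x, f x = n)).card
      * ∏ n ∈ S, Q n ≤ ∏ x, (G x).card := by
  classical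
  set t : I → Finset ℕ := fun x => (G x).filter (fun v => ∀ n ∈ S, n ∈ G x → n = v) with ht
  have h1 : (Fintype.piFinset G).filter (fun f => ∀ n ∈ S, ∃ x, f x = n)
      ⊆ Fintype.piFinset t := by
    intro f hf
    simp only [mem_filter, Fintype.mem_piFinset] at hf ⊢
    intro x
    simp only [ht, mem_filter]
    refine ⟨hf.1 x, fun n hn hx => ?_⟩
    obtain ⟨y, hy⟩ := hf.2 n hn
    have : x = y := hG x y n hx (hy ▸ hf.1 y)
    rw [this, hy]
  have h2 : ∏ n ∈ S, Q n = ∏ x, ∏ n ∈ S.filter (fun n => n ∈ G x), Q n := by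
    rcases S.eq_empty_or_nonempty with rfl | ⟨n0, hn0⟩
    · simp
    have : Nonempty I := ⟨(hS n0 hn0).choose⟩
    choose! γ hγ using hS
    rw [← Finset.prod_fiberwise_of_maps_to (s := S) (t := univ) (g := γ)
      (fun _ _ => mem_univ _)]
    refine prod_congr rfl fun x _ => ?_
    refine prod_congr ?_ fun _ _ => rfl
    ext n
    simp only [mem_filter]
    constructor
    · rintro ⟨hn, rfl⟩
      exact ⟨hn, hγ n hn⟩
    · rintro ⟨hn, hx⟩
      exact ⟨hn, hG _ _ n (hγ n hn) hx⟩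
  calc _ ≤ (Fintype.piFinset t).card * ∏ n ∈ S, Q n :=
        Nat.mul_le_mul_right _ (card_le_card h1)
    _ = ∏ x, ((t x).card * ∏ n ∈ S.filter (fun n => n ∈ G x), Q n) := by
        rw [h2, Fintype.card_piFinset, ← prod_mul_distrib]
    _ ≤ ∏ x, (G x).card := by
        refine prod_le_prod (fun _ _ => Nat.zero_le _) (fun x _ => ?_)
        rcases (S.filter (fun n => n ∈ G x)).eq_empty_or_nonempty with h0 | ⟨n, hn⟩
        · rw [h0, prod_empty, mul_one]
          exact card_filter_le _ _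
        · by_cases h : ∀ n' ∈ S.filter (fun n => n ∈ G x), n' = n
          · have h3 : S.filter (fun n => n ∈ G x) = {n} := by
              ext n'
              simp only [mem_singleton]
              exact ⟨h n', fun h' => h' ▸ hn⟩
            rw [h3, prod_singleton]
            have h4 : t x ⊆ {n} := by
              intro v hv
              rw [ht, mem_filter] at hv
              rw [mem_filter] at hn
              rw [mem_singleton]
              exact (hv.2 n hn.1 hn.2).symm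
            calc (t x).card * Q n ≤ 1 * (G x).card :=
                  Nat.mul_le_mul (card_le_card h4) (hQ x n (mem_filter.1 hn).2)
              _ = (G x).card := one_mul _
          · push Not at h
            obtain ⟨n', hn', hne⟩ := h
            have h5 : t x = ∅ := by
              rw [eq_empty_iff_forall_notMem]
              intro v hv
              rw [ht, mem_filter] at hv
              rw [mem_filter] at hn hn'
              exact hne ((hv.2 n' hn'.1 hn'.2).trans (hv.2 n hn.1 hn.2).symm)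
            rw [h5]
            simp

lemma exists_select {I κ : Type*} [Fintype I] [DecidableEq I] (G : I → Finset ℕ)
    (hG : ∀ x y n, n ∈ G x → n ∈ G y → x = y) (hne : ∀ x, (G x).Nonempty)
    (Q : ℕ → ℕ) (hQpos : ∀ n, 0 < Q n) (hQ : ∀ x, ∀ n ∈ G x, Q n ≤ (G x).card)
    (K : Finset κ) (S : κ → Finset ℕ) (hS : ∀ k ∈ K, ∀ n ∈ S k, ∃ x, n ∈ G x)
    (w : κ → ℝ) (hw : ∀ k ∈ K, 0 ≤ w k)
    (hsum : ∑ k ∈ K, w k / (∏ n ∈ S k, (Q n : ℝ)) < 1) :
    ∃ f : I → ℕ, (∀ x, f x ∈ G x) ∧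
      ∀ K' ⊆ K, (∀ k ∈ K', ∀ n ∈ S k, ∃ x, f x = n) → ∑ k ∈ K', w k < 1 := by
  classical
  set Ω := Fintype.piFinset G with hΩdef
  have hΩcard : Ω.card = ∏ x, (G x).card := by rw [hΩdef, Fintype.card_piFinset]
  have hΩpos : 0 < Ω.card := by
    rw [hΩcard]
    exact prod_pos fun x _ => (hne x).card_pos
  by_contra hcon
  push Not at hcon
  have h1 : (Ω.card : ℝ) ≤ ∑ f ∈ Ω, ∑ k ∈ K.filter (fun k => ∀ n ∈ S k, ∃ x, f x = n), w k := by
    calc (Ω.card : ℝ) = ∑ f ∈ Ω, (1 : ℝ) := by simp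
      _ ≤ _ := sum_le_sum (fun f hf => ?_)
    obtain ⟨K', hK', h3, h4⟩ := hcon f (by simpa [hΩdef] using hf)
    refine h4.trans (sum_le_sum_of_subset_of_nonneg ?_ ?_)
    · intro k hk
      rw [mem_filter]
      exact ⟨hK' hk, h3 k hk⟩
    · intro k hk _
      exact hw k (mem_filter.1 hk).1
  have h2 : ∑ f ∈ Ω, ∑ k ∈ K.filter (fun k => ∀ n ∈ S k, ∃ x, f x = n), w k
      = ∑ k ∈ K, w k * ((Ω.filter (fun f => ∀ n ∈ S k, ∃ x, f x = n)).card : ℝ) := by
    simp_rw [sum_filter]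
    rw [sum_comm]
    refine sum_congr rfl fun k _ => ?_
    rw [← sum_filter, sum_const, nsmul_eq_mul, mul_comm]
  have h3 : ∑ k ∈ K, w k * ((Ω.filter (fun f => ∀ n ∈ S k, ∃ x, f x = n)).card : ℝ)
      ≤ ∑ k ∈ K, (w k / (∏ n ∈ S k, (Q n : ℝ))) * Ω.card := by
    refine sum_le_sum fun k hk => ?_
    have h4 := card_select G hG Q hQ (S k) (hS k hk)
    rw [← hΩcard] at h4
    have h5 : ((Ω.filter (fun f => ∀ n ∈ S k, ∃ x, f x = n)).card : ℝ) * ∏ n ∈ S k, (Q n : ℝ)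
        ≤ Ω.card := by
      exact_mod_cast h4
    have h6 : 0 < ∏ n ∈ S k, (Q n : ℝ) := prod_pos fun n _ => by exact_mod_cast hQpos n
    rw [div_mul_eq_mul_div, le_div_iff₀ h6, mul_assoc]
    exact mul_le_mul_of_nonneg_left h5 (hw k hk)
  rw [← sum_mul] at h3
  have h7 : (0 : ℝ) < Ω.card := by exact_mod_cast hΩpos
  have h8 := (h1.trans (h2.le.trans h3))
  have h9 : (∑ k ∈ K, w k / (∏ n ∈ S k, (Q n : ℝ))) * Ω.card < 1 * Ω.card :=
    mul_lt_mul_of_pos_right hsum h7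
  linarith

lemma exp_ineq (a b z L : ℕ) (y : Fin a → ℕ) (w : Fin b → ℕ)
    (c : Fin (a+1) → Fin (b+1) → ℕ) (hzL : z ≤ L) (h0 : ∀ i j, z ≤ c i j)
    (hy : ∀ i j, y i ≤ c i.succ j) (hw : ∀ i j, w j ≤ c i j.succ) :
    (a*b+a+b) * (z + ∑ i, y i + ∑ j, w j) ≤ a*b*L + (a+b) * ∑ i, ∑ j, c i j := by
  have h1 : ∑ i, ∑ j, c i j = c 0 0 + ∑ j : Fin b, c 0 j.succ
      + (∑ i : Fin a, c i.succ 0 + ∑ i : Fin a, ∑ j : Fin b, c i.succ j.succ) := by
    rw [Fin.sum_univ_succ, Fin.sum_univ_succ]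
    congr 1
    rw [← sum_add_distrib]
    exact sum_congr rfl fun i _ => Fin.sum_univ_succ _
  have h2 : ∑ j, w j ≤ ∑ j : Fin b, c 0 j.succ := sum_le_sum fun j _ => hw 0 j
  have h3 : ∑ i, y i ≤ ∑ i : Fin a, c i.succ 0 := sum_le_sum fun i _ => hy i 0
  have h4 : b * ∑ i, y i ≤ ∑ i : Fin a, ∑ j : Fin b, c i.succ j.succ := by
    rw [mul_sum]
    refine sum_le_sum fun i _ => ?_
    calc b * y i = ∑ j : Fin b, y i := by simp
      _ ≤ _ := sum_le_sum fun j _ => hy i j.succ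
  have h5 : a * ∑ j, w j ≤ ∑ i : Fin a, ∑ j : Fin b, c i.succ j.succ := by
    calc a * ∑ j, w j = ∑ i : Fin a, ∑ j, w j := by simp
      _ ≤ _ := sum_le_sum fun i _ => sum_le_sum fun j _ => hw i.succ j
  have h6 := h0 0 0
  rw [h1]
  set D := ∑ i : Fin a, ∑ j : Fin b, c i.succ j.succ
  set Y := ∑ i, y i
  set W := ∑ j, w j
  have h7 : a * b * z ≤ a * b * L := Nat.mul_le_mul_left _ hzL
  have h8 : a * (b * Y) ≤ a * D := Nat.mul_le_mul_left _ h4
  have h9 : b * (a * W) ≤ b * D := Nat.mul_le_mul_left _ h5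
  have h10 : (a + b) * (z + W + (Y + D)) ≤ (a+b) * (c 0 0 + ∑ j : Fin b, c 0 j.succ
      + (∑ i : Fin a, c i.succ 0 + D)) := by
    apply Nat.mul_le_mul_left
    omega
  refine le_trans ?_ (Nat.add_le_add_left h10 _)
  nlinarith


/-- The scale `N_j = 2^(Q j^2)`. -/
def NN (Q j : ℕ) : ℕ := 2 ^ (Q * j ^ 2)

lemma NN_pos (Q j : ℕ) : 0 < NN Q j := by unfold NN; positivity

lemma NN_mono (Q : ℕ) {i j : ℕ} (h : i ≤ j) : NN Q i ≤ NN Q j := by
  unfold NN
  exact Nat.pow_le_pow_right (by norm_num) (Nat.mul_le_mul_left _ (Nat.pow_le_pow_left h 2))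

lemma four_NN_le (Q : ℕ) (hQ : 2 ≤ Q) {i j : ℕ} (h : i < j) : 4 * NN Q i ≤ NN Q j := by
  unfold NN
  have h1 : Q * i ^ 2 + 2 ≤ Q * j ^ 2 := by
    have : i ^ 2 + 1 ≤ j ^ 2 := by nlinarith
    nlinarith
  calc 4 * 2 ^ (Q * i ^ 2) = 2 ^ (Q * i ^ 2 + 2) := by rw [pow_add]; ring
    _ ≤ _ := Nat.pow_le_pow_right (by norm_num) h1

/-- The scale index of a natural number. -/
noncomputable def sc (Q j0 y : ℕ) : ℕ := sInf {j | j0 ≤ j ∧ y < 3 * NN Q j}

lemma sc_spec (Q j0 : ℕ) (hQ : 2 ≤ Q) (y : ℕ) :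
    j0 ≤ sc Q j0 y ∧ y < 3 * NN Q (sc Q j0 y) := by
  have : sc Q j0 y ∈ {j | j0 ≤ j ∧ y < 3 * NN Q j} := by
    apply Nat.sInf_mem
    refine ⟨max j0 y, le_max_left _ _, ?_⟩
    have h1 : y < 2 ^ y := Nat.lt_two_pow_self
    have h2 : 2 ^ y ≤ NN Q (max j0 y) := by
      unfold NN
      refine Nat.pow_le_pow_right (by norm_num) ?_
      calc y ≤ max j0 y := le_max_right _ _
        _ ≤ (max j0 y) ^ 2 := Nat.le_self_pow (by norm_num) _
        _ ≤ Q * (max j0 y) ^ 2 := Nat.le_mul_of_pos_left _ (by omega)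
    omega
  exact this

lemma sc_le {Q j0 j y : ℕ} (hj : j0 ≤ j) (hy : y < 3 * NN Q j) : sc Q j0 y ≤ j :=
  Nat.sInf_le ⟨hj, hy⟩

lemma sc_mono (Q j0 : ℕ) (hQ : 2 ≤ Q) {y y' : ℕ} (h : y ≤ y') : sc Q j0 y ≤ sc Q j0 y' :=
  sc_le (sc_spec Q j0 hQ y').1 (lt_of_le_of_lt h (sc_spec Q j0 hQ y').2)

lemma le_sc (Q j0 : ℕ) (hQ : 2 ≤ Q) {j n : ℕ} (h : NN Q j ≤ n) : j ≤ sc Q j0 n := by
  by_contra hc
  push Not at hc
  have h1 := (sc_spec Q j0 hQ n).2
  have h2 := four_NN_le Q hQ hc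
  have h3 := NN_pos Q (sc Q j0 n)
  omega

lemma sc_window (Q j0 : ℕ) (hQ : 2 ≤ Q) {j n : ℕ} (hj : j0 ≤ j) (h1 : 2 * NN Q j ≤ n)
    (h2 : n < 3 * NN Q j) : sc Q j0 n = j :=
  le_antisymm (sc_le hj h2) (le_sc Q j0 hQ (by omega))

/-- Sum of weights. -/
lemma weight_sum (Q j0 : ℕ) (hQ : 2 ≤ Q) {J : ℕ} (hJ : j0 ≤ J) :
    ∑ y ∈ range (3 * NN Q J), (1 / (NN Q (sc Q j0 y) : ℝ)) ≤ 3 * (J + 1) := by
  calc ∑ y ∈ range (3 * NN Q J), (1 / (NN Q (sc Q j0 y) : ℝ))
      ≤ ∑ y ∈ range (3 * NN Q J), ∑ t ∈ range (J + 1),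
          (if y < 3 * NN Q t then (1 / (NN Q t : ℝ)) else 0) := by
        refine sum_le_sum fun y hy => ?_
        have h1 : sc Q j0 y ∈ range (J + 1) := by
          rw [mem_range, Nat.lt_succ_iff]
          exact sc_le hJ (mem_range.1 hy)
        have h2 : (1 / (NN Q (sc Q j0 y) : ℝ))
            = (if y < 3 * NN Q (sc Q j0 y) then (1 / (NN Q (sc Q j0 y) : ℝ)) else 0) := by
          rw [if_pos (sc_spec Q j0 hQ y).2]
        rw [h2]
        refine single_le_sum (f := fun t => (if y < 3 * NN Q t then (1 / (NN Q t : ℝ)) else 0))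
          (fun t _ => ?_) h1
        split_ifs
        · positivity
        · exact le_refl _
    _ = ∑ t ∈ range (J + 1), ∑ y ∈ range (3 * NN Q J),
          (if y < 3 * NN Q t then (1 / (NN Q t : ℝ)) else 0) := sum_comm
    _ ≤ ∑ t ∈ range (J + 1), (3 : ℝ) := by
        refine sum_le_sum fun t _ => ?_
        rw [← sum_filter, sum_const, nsmul_eq_mul]
        have h3 : ((range (3 * NN Q J)).filter (fun y => y < 3 * NN Q t)).card ≤ 3 * NN Q t := by
          calc _ ≤ (range (3 * NN Q t)).card := by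
                apply card_le_card
                intro y hy
                rw [mem_filter] at hy
                exact mem_range.2 hy.2
            _ = _ := card_range _
        have h4 : (0 : ℝ) < NN Q t := by exact_mod_cast NN_pos Q t
        rw [mul_one_div, div_le_iff₀ h4]
        exact_mod_cast h3
    _ = 3 * (J + 1) := by
        rw [sum_const, card_range, nsmul_eq_mul]
        push_cast
        ring

lemma box_sum (a b L : ℕ) (F : ℕ → ℝ) :
    ∑ k ∈ range L ×ˢ (Fintype.piFinset (fun _ : Fin a => range L) ×ˢ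
        Fintype.piFinset (fun _ : Fin b => range L)),
      F k.1 * ((∏ i, F (k.2.1 i)) * ∏ j, F (k.2.2 j)) = (∑ y ∈ range L, F y) ^ (1 + a + b) := by
  rw [sum_product]
  simp_rw [← mul_sum]
  rw [← sum_mul]
  simp_rw [sum_product, ← mul_sum]
  rw [← sum_mul]
  have h : ∀ n : ℕ, ∑ p ∈ Fintype.piFinset (fun _ : Fin n => range L), ∏ i, F (p i)
      = (∑ y ∈ range L, F y) ^ n := by
    intro n
    have := Finset.prod_univ_sum (fun _ : Fin n => range L) (fun _ y => F y)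
    rw [← this]
    simp
  rw [h, h]
  ring

/-- Entries of the configuration coded by `k`. -/
def ent {a b : ℕ} (k : ℕ × (Fin a → ℕ) × (Fin b → ℕ)) (i : Fin (a+1)) (j : Fin (b+1)) : ℕ :=
  k.1 + (Fin.cons 0 k.2.1 : Fin (a+1) → ℕ) i + (Fin.cons 0 k.2.2 : Fin (b+1) → ℕ) j

/-- Group sizes. -/
def qq (a b C j : ℕ) : ℕ := 2 ^ ((a + b) * j ^ 2 + C * j)

lemma ent_le_left {a b : ℕ} (k : ℕ × (Fin a → ℕ) × (Fin b → ℕ)) (i : Fin (a+1)) (j : Fin (b+1)) :
    k.1 ≤ ent k i j := by unfold ent; omega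

lemma ent_le_u {a b : ℕ} (k : ℕ × (Fin a → ℕ) × (Fin b → ℕ)) (i : Fin a) (j : Fin (b+1)) :
    k.2.1 i ≤ ent k i.succ j := by
  unfold ent
  rw [Fin.cons_succ]
  omega

lemma ent_le_v {a b : ℕ} (k : ℕ × (Fin a → ℕ) × (Fin b → ℕ)) (i : Fin (a+1)) (j : Fin b) :
    k.2.2 j ≤ ent k i j.succ := by
  unfold ent
  rw [Fin.cons_succ]
  omega


/-- Two cells of scale at least `J`. -/
lemma two_cells (a b Q j0 J : ℕ) (ha : 1 ≤ a) (hb : 1 ≤ b) (hQ : 2 ≤ Q)
    (k : ℕ × (Fin a → ℕ) × (Fin b → ℕ))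
    (htop : 2 * NN Q J ≤ ent k (Fin.last a) (Fin.last b)) :
    2 * J ≤ ∑ i, ∑ j, sc Q j0 (ent k i j) := by
  have h1 : J ≤ sc Q j0 (ent k (Fin.last a) (Fin.last b)) := le_sc Q j0 hQ (by omega)
  have h2 : ent k (Fin.last a) (Fin.last b) ≤ ent k (Fin.last a) 0 + ent k 0 (Fin.last b) := by
    unfold ent
    simp only [Fin.cons_zero]
    omega
  have hl : (Fin.last b) ≠ 0 := by
    intro h
    have := congrArg Fin.val h
    simp at this
    omega
  have hl' : (Fin.last a) ≠ 0 := by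
    intro h
    have := congrArg Fin.val h
    simp at this
    omega
  rcases le_total (NN Q J) (ent k (Fin.last a) 0) with h3 | h3
  · have h4 : J ≤ sc Q j0 (ent k (Fin.last a) 0) := le_sc Q j0 hQ h3
    have h5 : sc Q j0 (ent k (Fin.last a) 0) + sc Q j0 (ent k (Fin.last a) (Fin.last b))
        ≤ ∑ j, sc Q j0 (ent k (Fin.last a) j) := by
      have := Finset.sum_le_sum_of_subset (f := fun j => sc Q j0 (ent k (Fin.last a) j))
        (subset_univ ({0, Fin.last b} : Finset (Fin (b+1))))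
      rwa [sum_pair hl.symm] at this
    have h6 : ∑ j, sc Q j0 (ent k (Fin.last a) j) ≤ ∑ i, ∑ j, sc Q j0 (ent k i j) :=
      single_le_sum (f := fun i => ∑ j, sc Q j0 (ent k i j)) (fun _ _ => Nat.zero_le _)
        (mem_univ _)
    omega
  · have h3' : NN Q J ≤ ent k 0 (Fin.last b) := by omega
    have h4 : J ≤ sc Q j0 (ent k 0 (Fin.last b)) := le_sc Q j0 hQ h3'
    have h5 : ∑ j, sc Q j0 (ent k 0 j) + ∑ j, sc Q j0 (ent k (Fin.last a) j)
        ≤ ∑ i, ∑ j, sc Q j0 (ent k i j) := by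
      have := Finset.sum_le_sum_of_subset (f := fun i => ∑ j, sc Q j0 (ent k i j))
        (subset_univ ({0, Fin.last a} : Finset (Fin (a+1))))
      rwa [sum_pair hl'.symm] at this
    have h6 : sc Q j0 (ent k 0 (Fin.last b)) ≤ ∑ j, sc Q j0 (ent k 0 j) :=
      single_le_sum (f := fun j => sc Q j0 (ent k 0 j)) (fun _ _ => Nat.zero_le _)
        (mem_univ _)
    have h7 : sc Q j0 (ent k (Fin.last a) (Fin.last b)) ≤ ∑ j, sc Q j0 (ent k (Fin.last a) j) :=
      single_le_sum (f := fun j => sc Q j0 (ent k (Fin.last a) j)) (fun _ _ => Nat.zero_le _)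
        (mem_univ _)
    omega

/-- Pointwise bound for the probability of a configuration with top entry in block `J`. -/
lemma term_bound (a b Q C j0 J : ℕ) (ha : 1 ≤ a) (hb : 1 ≤ b) (hQ : Q = a * b + a + b)
    (hJ : j0 ≤ J) (k : ℕ × (Fin a → ℕ) × (Fin b → ℕ))
    (htop : 2 * NN Q J ≤ ent k (Fin.last a) (Fin.last b))
    (htop' : ent k (Fin.last a) (Fin.last b) < 3 * NN Q J) :
    2 ^ (2 * C * J) * (NN Q (sc Q j0 k.1) * ((∏ i, NN Q (sc Q j0 (k.2.1 i))) *
      ∏ j, NN Q (sc Q j0 (k.2.2 j))))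
      ≤ 2 ^ (a * b * J ^ 2) * ∏ i, ∏ j, qq a b C (sc Q j0 (ent k i j)) := by
  have hQ2 : 2 ≤ Q := by nlinarith
  have h1 := exp_ineq a b ((sc Q j0 k.1) ^ 2) (J ^ 2) (fun i => (sc Q j0 (k.2.1 i)) ^ 2)
    (fun j => (sc Q j0 (k.2.2 j)) ^ 2) (fun i j => (sc Q j0 (ent k i j)) ^ 2)
    (Nat.pow_le_pow_left (sc_le hJ (lt_of_le_of_lt (ent_le_left k _ _) htop')) 2)
    (fun i j => Nat.pow_le_pow_left (sc_mono Q j0 hQ2 (ent_le_left k i j)) 2)
    (fun i j => Nat.pow_le_pow_left (sc_mono Q j0 hQ2 (ent_le_u k i j)) 2)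
    (fun i j => Nat.pow_le_pow_left (sc_mono Q j0 hQ2 (ent_le_v k i j)) 2)
  have h2 := two_cells a b Q j0 J ha hb hQ2 k htop
  have h3 : ∏ i, ∏ j, qq a b C (sc Q j0 (ent k i j))
      = 2 ^ ((a + b) * (∑ i, ∑ j, (sc Q j0 (ent k i j)) ^ 2)
        + C * ∑ i, ∑ j, sc Q j0 (ent k i j)) := by
    unfold qq
    simp_rw [prod_pow_eq_pow_sum, sum_add_distrib, ← mul_sum]
  have h4 : NN Q (sc Q j0 k.1) * ((∏ i, NN Q (sc Q j0 (k.2.1 i))) *
      ∏ j, NN Q (sc Q j0 (k.2.2 j))) = 2 ^ (Q * ((sc Q j0 k.1) ^ 2 +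
        ∑ i, (sc Q j0 (k.2.1 i)) ^ 2 + ∑ j, (sc Q j0 (k.2.2 j)) ^ 2)) := by
    unfold NN
    rw [prod_pow_eq_pow_sum, prod_pow_eq_pow_sum, ← mul_sum, ← mul_sum, ← pow_add, ← pow_add]
    congr 1
    ring
  rw [h3, h4, ← pow_add, ← pow_add]
  refine Nat.pow_le_pow_right (by norm_num) ?_
  rw [← hQ] at h1
  have h5 : 2 * C * J ≤ C * ∑ i, ∑ j, sc Q j0 (ent k i j) := by
    calc 2 * C * J = C * (2 * J) := by ring
      _ ≤ _ := Nat.mul_le_mul_left _ h2
  omega



/-- The box of codes with entries below `3 N_J`. -/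
def box (a b Q J : ℕ) : Finset (ℕ × (Fin a → ℕ) × (Fin b → ℕ)) :=
  range (3 * NN Q J) ×ˢ (Fintype.piFinset (fun _ : Fin a => range (3 * NN Q J)) ×ˢ
        Fintype.piFinset (fun _ : Fin b => range (3 * NN Q J)))

lemma mem_box_of_top {a b Q J : ℕ} (k : ℕ × (Fin a → ℕ) × (Fin b → ℕ))
    (h : ∀ i j, ent k i j < 3 * NN Q J) : k ∈ box a b Q J := by
  unfold box
  simp only [mem_product, mem_range, Fintype.mem_piFinset]
  exact ⟨lt_of_le_of_lt (ent_le_left k 0 0) (h 0 0),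
    fun i => lt_of_le_of_lt (ent_le_u k i 0) (h _ _),
    fun j => lt_of_le_of_lt (ent_le_v k 0 j) (h _ _)⟩

lemma block_sum (a b Q C j0 J : ℕ) (ha : 1 ≤ a) (hb : 1 ≤ b) (hQ : Q = a * b + a + b)
    (hJ : j0 ≤ J) (K : Finset (ℕ × (Fin a → ℕ) × (Fin b → ℕ))) (hK : K ⊆ box a b Q J)
    (htop : ∀ k ∈ K, 2 * NN Q J ≤ ent k (Fin.last a) (Fin.last b))
    (htop' : ∀ k ∈ K, ent k (Fin.last a) (Fin.last b) < 3 * NN Q J) :
    ∑ k ∈ K, 1 / (∏ i, ∏ j, (qq a b C (sc Q j0 (ent k i j)) : ℝ))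
      ≤ 2 ^ (a * b * J ^ 2) / 2 ^ (2 * C * J) * (3 * (J + 1)) ^ (1 + a + b) := by
  have hQ2 : 2 ≤ Q := by nlinarith
  set F : ℕ → ℝ := fun y => 1 / (NN Q (sc Q j0 y) : ℝ) with hF
  have hFpos : ∀ y, 0 ≤ F y := fun y => by rw [hF]; positivity
  have h1 : ∀ k ∈ K, 1 / (∏ i, ∏ j, (qq a b C (sc Q j0 (ent k i j)) : ℝ))
      ≤ 2 ^ (a * b * J ^ 2) / 2 ^ (2 * C * J) *
        (F k.1 * ((∏ i, F (k.2.1 i)) * ∏ j, F (k.2.2 j))) := by
    intro k hk
    have h2 := term_bound a b Q C j0 J ha hb hQ hJ k (htop k hk) (htop' k hk)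
    have h3 : (2 : ℝ) ^ (2 * C * J) * (NN Q (sc Q j0 k.1) * ((∏ i, (NN Q (sc Q j0 (k.2.1 i)) : ℝ)) *
      ∏ j, (NN Q (sc Q j0 (k.2.2 j)) : ℝ)))
      ≤ 2 ^ (a * b * J ^ 2) * ∏ i, ∏ j, (qq a b C (sc Q j0 (ent k i j)) : ℝ) := by
      exact_mod_cast h2
    have h4 : F k.1 * ((∏ i, F (k.2.1 i)) * ∏ j, F (k.2.2 j))
        = 1 / (NN Q (sc Q j0 k.1) * ((∏ i, (NN Q (sc Q j0 (k.2.1 i)) : ℝ)) *
      ∏ j, (NN Q (sc Q j0 (k.2.2 j)) : ℝ))) := by
      rw [hF]
      simp only [one_div, prod_inv_distrib, mul_inv]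
    rw [h4]
    have h5 : (0 : ℝ) < ∏ i, ∏ j, (qq a b C (sc Q j0 (ent k i j)) : ℝ) := by
      refine prod_pos fun i _ => prod_pos fun j _ => ?_
      unfold qq
      positivity
    have h6 : (0 : ℝ) < (NN Q (sc Q j0 k.1) * ((∏ i, (NN Q (sc Q j0 (k.2.1 i)) : ℝ)) *
      ∏ j, (NN Q (sc Q j0 (k.2.2 j)) : ℝ))) := by
      have h7 : ∀ j, (0 : ℝ) < NN Q j := fun j => by exact_mod_cast NN_pos Q j
      exact mul_pos (h7 _) (mul_pos (prod_pos fun i _ => h7 _) (prod_pos fun j _ => h7 _))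
    rw [div_mul_div_comm, mul_one, div_le_div_iff₀ h5 (by positivity)]
    linarith
  calc ∑ k ∈ K, 1 / (∏ i, ∏ j, (qq a b C (sc Q j0 (ent k i j)) : ℝ))
      ≤ ∑ k ∈ K, 2 ^ (a * b * J ^ 2) / 2 ^ (2 * C * J) *
        (F k.1 * ((∏ i, F (k.2.1 i)) * ∏ j, F (k.2.2 j))) := sum_le_sum h1
    _ ≤ ∑ k ∈ box a b Q J, 2 ^ (a * b * J ^ 2) / 2 ^ (2 * C * J) *
        (F k.1 * ((∏ i, F (k.2.1 i)) * ∏ j, F (k.2.2 j))) := by
        refine sum_le_sum_of_subset_of_nonneg hK fun k _ _ => ?_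
        refine mul_nonneg (by positivity) (mul_nonneg (hFpos _) (mul_nonneg ?_ ?_))
        · exact prod_nonneg fun i _ => hFpos _
        · exact prod_nonneg fun i _ => hFpos _
    _ = 2 ^ (a * b * J ^ 2) / 2 ^ (2 * C * J) *
        (∑ y ∈ range (3 * NN Q J), F y) ^ (1 + a + b) := by
        rw [← mul_sum, box, box_sum]
    _ ≤ _ := by
        refine mul_le_mul_of_nonneg_left ?_ (by positivity)
        exact pow_le_pow_left₀ (sum_nonneg fun y _ => hFpos y) (weight_sum Q j0 hQ2 hJ) _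

/-- The numerical inequality between the parameters. -/
lemma param_ineq (a b c C J μ : ℕ) (hC : C = c + a + b + 4) (hJ : a + b + 2 ≤ J)
    (hμ : μ + (C + c) * J = a * b * J ^ 2) :
    (2 / 2 ^ μ : ℝ) * (2 ^ (a * b * J ^ 2) / 2 ^ (2 * C * J) * (3 * (J + 1)) ^ (1 + a + b))
      ≤ (1 / 2) ^ (J + 1) := by
  have h1 : (3 * ((J : ℝ) + 1)) ≤ 2 ^ (J + 2) := by
    have : J + 1 ≤ 2 ^ J := Nat.lt_two_pow_self
    have h2 : ((J : ℝ) + 1) ≤ 2 ^ J := by exact_mod_cast this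
    rw [pow_add]
    have h3 : (0 : ℝ) < 2 ^ J := by positivity
    nlinarith
  have h2 : (3 * ((J : ℝ) + 1)) ^ (1 + a + b) ≤ 2 ^ ((J + 2) * (1 + a + b)) := by
    rw [pow_mul]
    exact pow_le_pow_left₀ (by positivity) h1 _
  rw [one_div, inv_pow, ← hμ, div_mul_eq_mul_div, div_mul_eq_mul_div, ← mul_div_assoc,
    div_div, inv_eq_one_div, div_le_div_iff₀ (by positivity) (by positivity), one_mul]
  calc 2 * (2 ^ (μ + (C + c) * J) * (3 * ((J : ℝ) + 1)) ^ (1 + a + b)) * 2 ^ (J + 1)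
      ≤ 2 * (2 ^ (μ + (C + c) * J) * 2 ^ ((J + 2) * (1 + a + b))) * 2 ^ (J + 1) := by
        gcongr
    _ = 2 ^ (1 + (μ + (C + c) * J) + (J + 2) * (1 + a + b) + (J + 1)) := by
        rw [pow_add, pow_add, pow_add]
        ring
    _ ≤ 2 ^ (2 * C * J + μ) := by
        refine pow_le_pow_right₀ (by norm_num) ?_
        subst hC
        nlinarith
    _ = 2 ^ (2 * C * J) * 2 ^ μ := by rw [pow_add]


/-- Hypotheses on the block data. -/
structure Blocks (a b Q C j0 : ℕ) (μ : ℕ → ℕ) (P : ℕ → Finset (Finset ℕ)) : Prop where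
  win : ∀ j, j0 ≤ j → ∀ x ∈ P j, ∀ n ∈ x, 2 * NN Q j ≤ n ∧ n < 3 * NN Q j
  size : ∀ j, j0 ≤ j → ∀ x ∈ P j, qq a b C j ≤ x.card
  num : ∀ j, j0 ≤ j → (P j).card = 2 ^ μ j
  disj : ∀ j, j0 ≤ j → ∀ x ∈ P j, ∀ y ∈ P j, ∀ n, n ∈ x → n ∈ y → x = y
  free : ThreeAPFree {n | ∃ j, j0 ≤ j ∧ ∃ x ∈ P j, n ∈ x}

lemma inj_of_free {a b : ℕ} (k : ℕ × (Fin a → ℕ) × (Fin b → ℕ)) (U : Set ℕ) (hU : ThreeAPFree U)
    (hu : StrictMono (Fin.cons 0 k.2.1 : Fin (a+1) → ℕ))
    (hv : StrictMono (Fin.cons 0 k.2.2 : Fin (b+1) → ℕ))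
    (h : ∀ i j, ent k i j ∈ U) :
    Function.Injective (fun p : Fin (a+1) × Fin (b+1) => ent k p.1 p.2) := by
  rintro ⟨i, j⟩ ⟨i', j'⟩ he
  simp only at he
  have h1 : ent k i j' + ent k i' j = ent k i j + ent k i j := by
    unfold ent at he ⊢
    omega
  have h2 := hU (h i j') (h i j) (h i' j) h1
  have h3 : (Fin.cons 0 k.2.2 : Fin (b+1) → ℕ) j = (Fin.cons 0 k.2.2 : Fin (b+1) → ℕ) j' := by
    unfold ent at h2
    omega
  have h4 := hv.injective h3
  subst h4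
  have h5 : (Fin.cons 0 k.2.1 : Fin (a+1) → ℕ) i = (Fin.cons 0 k.2.1 : Fin (a+1) → ℕ) i' := by
    unfold ent at he
    omega
  rw [hu.injective h5]

lemma geom_half (n : ℕ) : ∑ J ∈ range n, ((1 : ℝ) / 2) ^ (J + 1) = 1 - (1 / 2) ^ n := by
  induction n with
  | zero => simp
  | succ n ih =>
    rw [sum_range_succ, ih, pow_succ]
    ring

theorem finite_set {a b Q C c j0 : ℕ} {μ : ℕ → ℕ} {P : ℕ → Finset (Finset ℕ)}
    (ha : 1 ≤ a) (hb : 1 ≤ b) (hQ : Q = a * b + a + b) (hC : C = c + a + b + 4)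
    (hj0 : a + b + 2 ≤ j0) (hμ : ∀ j, j0 ≤ j → μ j + (C + c) * j = a * b * j ^ 2)
    (H : Blocks a b Q C j0 μ P) (T : ℕ) :
    ∃ A : Finset ℕ, (∀ n ∈ A, ∃ j, j0 ≤ j ∧ ∃ x ∈ P j, n ∈ x) ∧
      (∀ k : ℕ × (Fin a → ℕ) × (Fin b → ℕ),
        StrictMono (Fin.cons 0 k.2.1 : Fin (a+1) → ℕ) →
        StrictMono (Fin.cons 0 k.2.2 : Fin (b+1) → ℕ) → ¬ ∀ i j, ent k i j ∈ A) ∧
      ∀ J, j0 ≤ J → J ≤ T →
        2 ^ μ J ≤ 2 * (A.filter (fun n => 2 * NN Q J ≤ n ∧ n < 3 * NN Q J)).card := by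
  classical
  have hQ2 : 2 ≤ Q := by nlinarith
  set PP : Finset (Finset ℕ) := (Icc j0 T).biUnion P with hPP
  have hPPmem : ∀ x ∈ PP, ∃ j, j0 ≤ j ∧ j ≤ T ∧ x ∈ P j := by
    intro x hx
    rw [hPP, mem_biUnion] at hx
    obtain ⟨j, hj, hx⟩ := hx
    rw [mem_Icc] at hj
    exact ⟨j, hj.1, hj.2, hx⟩
  have hscP : ∀ j, j0 ≤ j → ∀ x ∈ P j, ∀ n ∈ x, sc Q j0 n = j := fun j hj x hx n hn =>
    sc_window Q j0 hQ2 hj (H.win j hj x hx n hn).1 (H.win j hj x hx n hn).2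
  set G : PP → Finset ℕ := fun x => x.1 with hGdef
  have hG : ∀ x y : PP, ∀ n, n ∈ G x → n ∈ G y → x = y := by
    rintro ⟨x, hx⟩ ⟨y, hy⟩ n hnx hny
    obtain ⟨j, hj, _, hxj⟩ := hPPmem x hx
    obtain ⟨j', hj', _, hyj⟩ := hPPmem y hy
    have e1 := hscP j hj x hxj n hnx
    have e2 := hscP j' hj' y hyj n hny
    have e3 : j = j' := e1.symm.trans e2
    subst e3
    exact Subtype.ext (H.disj j hj x hxj y hyj n hnx hny)
  have hqpos : ∀ j, 0 < qq a b C j := fun j => by unfold qq; positivity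
  have hne : ∀ x, (G x).Nonempty := by
    rintro ⟨x, hx⟩
    obtain ⟨j, hj, _, hxj⟩ := hPPmem x hx
    exact card_pos.1 (lt_of_lt_of_le (hqpos j) (H.size j hj x hxj))
  set Qf : ℕ → ℕ := fun n => qq a b C (sc Q j0 n) with hQf
  have hQG : ∀ x, ∀ n ∈ G x, Qf n ≤ (G x).card := by
    rintro ⟨x, hx⟩ n hn
    obtain ⟨j, hj, _, hxj⟩ := hPPmem x hx
    rw [hQf]
    simp only
    rw [hscP j hj x hxj n hn]
    exact H.size j hj x hxj
  set K : Finset (ℕ × (Fin a → ℕ) × (Fin b → ℕ)) := (box a b Q T).filter (fun k =>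
    StrictMono (Fin.cons 0 k.2.1 : Fin (a+1) → ℕ) ∧
    StrictMono (Fin.cons 0 k.2.2 : Fin (b+1) → ℕ) ∧ ∀ i j, ∃ x : PP, ent k i j ∈ G x) with hK
  set S : (ℕ × (Fin a → ℕ) × (Fin b → ℕ)) → Finset ℕ := fun k =>
    univ.image (fun p : Fin (a+1) × Fin (b+1) => ent k p.1 p.2) with hS
  set top : (ℕ × (Fin a → ℕ) × (Fin b → ℕ)) → ℕ := fun k => ent k (Fin.last a) (Fin.last b)
    with htopdef
  set w : (ℕ × (Fin a → ℕ) × (Fin b → ℕ)) → ℝ := fun k => 2 / 2 ^ μ (sc Q j0 (top k)) with hw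
  have hKU : ∀ k ∈ K, ∀ i j, ent k i j ∈ {n | ∃ j, j0 ≤ j ∧ ∃ x ∈ P j, n ∈ x} := by
    intro k hk i j
    rw [hK, mem_filter] at hk
    obtain ⟨⟨x, hx⟩, hxx⟩ := hk.2.2.2 i j
    obtain ⟨j', hj', _, hxj⟩ := hPPmem x hx
    exact ⟨j', hj', x, hxj, hxx⟩
  have hKinj : ∀ k ∈ K, Function.Injective (fun p : Fin (a+1) × Fin (b+1) => ent k p.1 p.2) := by
    intro k hk
    have hk' := hk
    rw [hK, mem_filter] at hk'
    exact inj_of_free k _ H.free hk'.2.1 hk'.2.2.1 (hKU k hk)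
  have hprod : ∀ k ∈ K, ∏ n ∈ S k, (Qf n : ℝ)
      = ∏ i, ∏ j, (qq a b C (sc Q j0 (ent k i j)) : ℝ) := by
    intro k hk
    rw [hS]
    simp only
    rw [prod_image (fun p _ p' _ h => hKinj k hk h), Fintype.prod_prod_type]
  have htopwin : ∀ k ∈ K, ∀ J, sc Q j0 (top k) = J →
      j0 ≤ J ∧ J ≤ T ∧ 2 * NN Q J ≤ top k ∧ top k < 3 * NN Q J := by
    intro k hk J hJ
    rw [hK, mem_filter] at hk
    obtain ⟨⟨x, hx⟩, hxx⟩ := hk.2.2.2 (Fin.last a) (Fin.last b)
    obtain ⟨j', hj', hjT, hxj⟩ := hPPmem x hx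
    have e1 := hscP j' hj' x hxj _ hxx
    have e2 : J = j' := hJ.symm.trans e1
    subst e2
    exact ⟨hj', hjT, (H.win J hj' x hxj _ hxx).1, (H.win J hj' x hxj _ hxx).2⟩
  have hent_le : ∀ k ∈ K, ∀ i j, ent k i j ≤ top k := by
    intro k hk i j
    rw [hK, mem_filter] at hk
    have e1 := hk.2.1.monotone (Fin.le_last i)
    have e2 := hk.2.2.1.monotone (Fin.le_last j)
    rw [htopdef]
    unfold ent
    simp only
    omega
  have hsum : ∑ k ∈ K, w k / (∏ n ∈ S k, (Qf n : ℝ)) < 1 := by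
    have e1 : ∑ k ∈ K, w k / (∏ n ∈ S k, (Qf n : ℝ))
        = ∑ J ∈ Icc j0 T, ∑ k ∈ K.filter (fun k => sc Q j0 (top k) = J),
          w k / (∏ n ∈ S k, (Qf n : ℝ)) := by
      rw [sum_fiberwise_of_maps_to]
      intro k hk
      obtain ⟨h1, h2, _⟩ := htopwin k hk _ rfl
      exact mem_Icc.2 ⟨h1, h2⟩
    have e2 : ∀ J ∈ Icc j0 T, ∑ k ∈ K.filter (fun k => sc Q j0 (top k) = J),
          w k / (∏ n ∈ S k, (Qf n : ℝ)) ≤ (1 / 2) ^ (J + 1) := by
      intro J hJ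
      rw [mem_Icc] at hJ
      have e3 : ∑ k ∈ K.filter (fun k => sc Q j0 (top k) = J), w k / (∏ n ∈ S k, (Qf n : ℝ))
          = (2 / 2 ^ μ J) * ∑ k ∈ K.filter (fun k => sc Q j0 (top k) = J),
            1 / (∏ i, ∏ j, (qq a b C (sc Q j0 (ent k i j)) : ℝ)) := by
        rw [mul_sum]
        refine sum_congr rfl fun k hk => ?_
        rw [mem_filter] at hk
        rw [hprod k hk.1, hw]
        simp only
        rw [hk.2]
        ring
      rw [e3]
      refine le_trans (mul_le_mul_of_nonneg_left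
        (block_sum a b Q C j0 J ha hb hQ hJ.1 _ ?_ ?_ ?_) (by positivity))
        (param_ineq a b c C J (μ J) hC (by omega) (hμ J hJ.1))
      · intro k hk
        rw [mem_filter] at hk
        refine mem_box_of_top k fun i j => lt_of_le_of_lt (hent_le k hk.1 i j) ?_
        exact (htopwin k hk.1 J hk.2).2.2.2
      · intro k hk
        rw [mem_filter] at hk
        exact (htopwin k hk.1 J hk.2).2.2.1
      · intro k hk
        rw [mem_filter] at hk
        exact (htopwin k hk.1 J hk.2).2.2.2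
    rw [e1]
    calc ∑ J ∈ Icc j0 T, ∑ k ∈ K.filter (fun k => sc Q j0 (top k) = J),
          w k / (∏ n ∈ S k, (Qf n : ℝ)) ≤ ∑ J ∈ Icc j0 T, ((1 : ℝ) / 2) ^ (J + 1) :=
          sum_le_sum e2
      _ ≤ ∑ J ∈ range (T + 1), ((1 : ℝ) / 2) ^ (J + 1) := by
          refine sum_le_sum_of_subset_of_nonneg ?_ (fun _ _ _ => by positivity)
          intro J hJ
          rw [mem_Icc] at hJ
          rw [mem_range]
          omega
      _ < 1 := by
          rw [geom_half]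
          have : (0 : ℝ) < (1 / 2) ^ (T + 1) := by positivity
          linarith
  obtain ⟨f, hf1, hf2⟩ := exists_select G hG hne Qf (fun n => hqpos _) hQG K S (by
      intro k hk n hn
      rw [hS] at hn
      simp only [mem_image, mem_univ, true_and] at hn
      obtain ⟨p, rfl⟩ := hn
      rw [hK, mem_filter] at hk
      exact hk.2.2.2 p.1 p.2) w (fun k _ => by rw [hw]; positivity) hsum
  set A0 : Finset ℕ := univ.image f with hA0
  set Bad := K.filter (fun k => ∀ i j, ent k i j ∈ A0) with hBad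
  set D := Bad.image top with hD
  have hA0mem : ∀ n ∈ A0, ∃ x : PP, n ∈ G x := by
    intro n hn
    rw [hA0, mem_image] at hn
    obtain ⟨x, _, rfl⟩ := hn
    exact ⟨x, hf1 x⟩
  refine ⟨A0 \ D, ?_, ?_, ?_⟩
  · intro n hn
    obtain ⟨⟨x, hx⟩, hxx⟩ := hA0mem n (mem_sdiff.1 hn).1
    obtain ⟨j', hj', _, hxj⟩ := hPPmem x hx
    exact ⟨j', hj', x, hxj, hxx⟩
  · intro k hku hkv hk
    have hkA0 : ∀ i j, ent k i j ∈ A0 := fun i j => (mem_sdiff.1 (hk i j)).1
    have hkK : k ∈ K := by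
      rw [hK, mem_filter]
      refine ⟨mem_box_of_top k fun i j => ?_, hku, hkv, fun i j => hA0mem _ (hkA0 i j)⟩
      obtain ⟨⟨x, hx⟩, hxx⟩ := hA0mem _ (hkA0 i j)
      obtain ⟨j', hj', hjT, hxj⟩ := hPPmem x hx
      have := (H.win j' hj' x hxj _ hxx).2
      have h2 := NN_mono Q hjT
      omega
    have hkBad : k ∈ Bad := by
      rw [hBad, mem_filter]
      exact ⟨hkK, hkA0⟩
    have h1 : top k ∈ D := by
      rw [hD]
      exact mem_image_of_mem top hkBad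
    exact (mem_sdiff.1 (hk (Fin.last a) (Fin.last b))).2 h1
  · intro J hJ hJT
    set W : ℕ → Prop := fun n => 2 * NN Q J ≤ n ∧ n < 3 * NN Q J with hW
    have e1 : 2 ^ μ J ≤ (A0.filter W).card := by
      rw [← H.num J hJ]
      have hsub : ∀ x ∈ P J, x ∈ PP := fun x hx => by
        rw [hPP, mem_biUnion]
        exact ⟨J, mem_Icc.2 ⟨hJ, hJT⟩, hx⟩
      refine card_le_card_of_injOn (fun x => if h : x ∈ PP then f ⟨x, h⟩ else 0) ?_ ?_
      · intro x hx
        have hx' : x ∈ P J := by exact_mod_cast hx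
        simp only [hsub x hx', dif_pos]
        rw [mem_coe, mem_filter]
        refine ⟨?_, ?_⟩
        · rw [hA0]
          exact mem_image_of_mem f (mem_univ _)
        · exact H.win J hJ x hx' _ (hf1 ⟨x, hsub x hx'⟩)
      · intro x hx y hy hxy
        have hx' : x ∈ P J := by exact_mod_cast hx
        have hy' : y ∈ P J := by exact_mod_cast hy
        simp only [hsub x hx', hsub y hy', dif_pos] at hxy
        have h1 := hf1 ⟨x, hsub x hx'⟩
        have h2 := hf1 ⟨y, hsub y hy'⟩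
        rw [← hxy] at h2
        have := hG _ _ _ h1 h2
        exact congrArg Subtype.val this
    set BadJ := Bad.filter (fun k => sc Q j0 (top k) = J) with hBadJ
    have e2 : (D.filter W).card ≤ BadJ.card := by
      refine le_trans (card_le_card ?_) (card_image_le (f := top) (s := BadJ))
      intro n hn
      rw [mem_filter, hD, mem_image] at hn
      obtain ⟨⟨k, hk, rfl⟩, hwn⟩ := hn
      refine mem_image_of_mem top ?_
      rw [hBadJ, mem_filter]
      exact ⟨hk, sc_window Q j0 hQ2 hJ hwn.1 hwn.2⟩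
    have e3 : 2 * BadJ.card < 2 ^ μ J := by
      have e4 : ∑ k ∈ BadJ, w k < 1 := by
        apply hf2
        · intro k hk
          rw [hBadJ, mem_filter, hBad, mem_filter] at hk
          exact hk.1.1
        · intro k hk n hn
          rw [hBadJ, mem_filter, hBad, mem_filter] at hk
          rw [hS] at hn
          simp only [mem_image, mem_univ, true_and] at hn
          obtain ⟨p, rfl⟩ := hn
          have := hk.1.2 p.1 p.2
          rw [hA0, mem_image] at this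
          obtain ⟨x, _, hx⟩ := this
          exact ⟨x, hx⟩
      have e5 : ∑ k ∈ BadJ, w k = BadJ.card * (2 / 2 ^ μ J) := by
        rw [← nsmul_eq_mul, ← sum_const]
        refine sum_congr rfl fun k hk => ?_
        rw [hBadJ, mem_filter] at hk
        rw [hw]
        simp only
        rw [hk.2]
      rw [e5, mul_div_assoc', div_lt_one (by positivity)] at e4
      have e6 : ((BadJ.card * 2 : ℕ) : ℝ) < ((2 ^ μ J : ℕ) : ℝ) := by
        push_cast
        exact e4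
      have e7 := Nat.cast_lt.1 e6
      omega
    have e8 : (A0.filter W).card - (D.filter W).card ≤ ((A0 \ D).filter W).card := by
      refine le_trans (le_card_sdiff _ _) (card_le_card ?_)
      intro n hn
      rw [mem_sdiff, mem_filter, mem_filter] at hn
      rw [mem_filter, mem_sdiff]
      exact ⟨⟨hn.1.1, fun h => hn.2 ⟨h, hn.1.2⟩⟩, hn.1.2⟩
    have e9 : 2 ^ μ J ≤ 2 * ((A0 \ D).filter W).card := by omega
    convert e9


lemma behrend_const (Q : ℕ) : ∃ c : ℕ, ∀ j : ℕ, NN Q j ≤ rothNumberNat (NN Q j) * 2 ^ (c * j) := by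
  refine ⟨⌈4 * √(Q * Real.log 2) / Real.log 2⌉₊, fun j => ?_⟩
  set c := ⌈4 * √(Q * Real.log 2) / Real.log 2⌉₊ with hc
  have h1 := Behrend.roth_lower_bound (N := NN Q j)
  have hlog2 : 0 < Real.log 2 := Real.log_pos (by norm_num)
  have h2 : Real.log (NN Q j) = (j : ℝ) ^ 2 * (Q * Real.log 2) := by
    unfold NN
    push_cast
    rw [Real.log_pow]
    push_cast
    ring
  have h3 : √(Real.log (NN Q j)) = j * √(Q * Real.log 2) := by
    rw [h2, Real.sqrt_mul (by positivity), Real.sqrt_sq (by positivity)]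
  have h4 : 4 * √(Q * Real.log 2) ≤ c * Real.log 2 := by
    have := Nat.le_ceil (4 * √(Q * Real.log 2) / Real.log 2)
    rw [div_le_iff₀ hlog2] at this
    exact this
  have h5 : (1 : ℝ) ≤ Real.exp (-4 * √(Real.log (NN Q j))) * 2 ^ (c * j) := by
    have h6 : (2 : ℝ) ^ (c * j) = Real.exp ((c * j : ℕ) * Real.log 2) := by
      rw [Real.exp_nat_mul, Real.exp_log (by norm_num)]
    rw [h6, ← Real.exp_add, h3]
    apply Real.one_le_exp
    push_cast
    have hj : (0 : ℝ) ≤ j := by positivity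
    nlinarith
  have h7 : (NN Q j : ℝ) ≤ rothNumberNat (NN Q j) * 2 ^ (c * j) := by
    calc (NN Q j : ℝ) = NN Q j * 1 := (mul_one _).symm
      _ ≤ NN Q j * (Real.exp (-4 * √(Real.log (NN Q j))) * 2 ^ (c * j)) := by gcongr
      _ = (NN Q j * Real.exp (-4 * √(Real.log (NN Q j)))) * 2 ^ (c * j) := by ring
      _ ≤ _ := by gcongr
  exact_mod_cast h7

lemma exists_parts (B : Finset ℕ) (m q : ℕ) (hm : 0 < m) (hq : 0 < q) (h : B.card = m * q) :
    ∃ P : Finset (Finset ℕ), P.card = m ∧ (∀ x ∈ P, q ≤ x.card) ∧ (∀ x ∈ P, ∀ n ∈ x, n ∈ B) ∧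
      ∀ x ∈ P, ∀ y ∈ P, ∀ n, n ∈ x → n ∈ y → x = y := by
  obtain ⟨P, hP, hcard⟩ := Finpartition.exists_equipartition_card_eq B (n := m) hm.ne'
    (by rw [h]; exact Nat.le_mul_of_pos_right m hq)
  refine ⟨P.parts, hcard, ?_, ?_, ?_⟩
  · intro x hx
    have := hP.average_le_card_part hx
    rwa [hcard, h, Nat.mul_div_cancel_left _ hm] at this
  · intro x hx n hn
    exact P.le hx hn
  · intro x hx y hy n hnx hny
    exact P.eq_of_mem_parts hx hy hnx hny

lemma exists_blocks (a b Q C c j0 : ℕ) (μ : ℕ → ℕ) (ha : 1 ≤ a) (hb : 1 ≤ b)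
    (hQ : Q = a * b + a + b)
    (hμ : ∀ j, j0 ≤ j → μ j + (C + c) * j = a * b * j ^ 2)
    (hc : ∀ j : ℕ, NN Q j ≤ rothNumberNat (NN Q j) * 2 ^ (c * j)) :
    ∃ P, Blocks a b Q C j0 μ P := by
  have hQ2 : 2 ≤ Q := by nlinarith
  -- existence for each j
  have key : ∀ j, j0 ≤ j → ∃ P : Finset (Finset ℕ), P.card = 2 ^ μ j ∧
      (∀ x ∈ P, qq a b C j ≤ x.card) ∧
      (∀ x ∈ P, ∀ n ∈ x, 2 * NN Q j ≤ n ∧ n < 3 * NN Q j) ∧
      (∀ x ∈ P, ∀ y ∈ P, ∀ n, n ∈ x → n ∈ y → x = y) ∧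
      ThreeAPFree {n | ∃ x ∈ P, n ∈ x} := by
    intro j hj
    obtain ⟨t, ht1, ht2, ht3⟩ := rothNumberNat_spec (NN Q j)
    have h1 : 2 ^ μ j * qq a b C j ≤ t.card := by
      rw [ht2]
      have h2 : 2 ^ μ j * qq a b C j * 2 ^ (c * j) = NN Q j := by
        unfold qq NN
        rw [← pow_add, ← pow_add]
        congr 1
        have := hμ j hj
        rw [hQ]
        nlinarith
      have h3 := hc j
      rw [← h2] at h3
      have h4 : 0 < 2 ^ (c * j) := by positivity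
      have h5 := Nat.le_of_mul_le_mul_right h3 h4
      rwa [h2] at h5
    obtain ⟨t', ht', ht'c⟩ := exists_subset_card_eq h1
    set B := t'.image (fun n => 2 * NN Q j + n) with hB
    have hBc : B.card = 2 ^ μ j * qq a b C j := by
      rw [hB, card_image_of_injective _ (fun x y h => by simpa using h), ht'c]
    obtain ⟨P, h1, h2, h3, h4⟩ := exists_parts B _ _ (by positivity)
      (by unfold qq; positivity) hBc
    refine ⟨P, h1, h2, ?_, h4, ?_⟩
    · intro x hx n hn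
      have := h3 x hx n hn
      rw [hB, mem_image] at this
      obtain ⟨n', hn', rfl⟩ := this
      have := mem_range.1 (ht1 (ht' hn'))
      omega
    · intro x hx y hy z hz hxyz
      obtain ⟨p, hp, hx⟩ := hx
      obtain ⟨p', hp', hy⟩ := hy
      obtain ⟨p'', hp'', hz⟩ := hz
      have hx := h3 p hp x hx
      have hy := h3 p' hp' y hy
      have hz := h3 p'' hp'' z hz
      rw [hB, mem_image] at hx hy hz
      obtain ⟨x', hx', rfl⟩ := hx
      obtain ⟨y', hy', rfl⟩ := hy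
      obtain ⟨z', hz', rfl⟩ := hz
      have := ht3 (ht' hx') (ht' hy') (ht' hz') (by omega)
      omega
  choose! P hP1 hP2 hP3 hP4 hP5 using key
  refine ⟨P, ⟨hP3, hP2, hP1, hP4, ?_⟩⟩
  rintro x ⟨i, hi, px, hpx, hx⟩ y ⟨j, hj, py, hpy, hy⟩ z ⟨k, hk, pz, hpz, hz⟩ hxyz
  have wx := hP3 i hi px hpx x hx
  have wy := hP3 j hj py hpy y hy
  have wz := hP3 k hk pz hpz z hz
  have sx := sc_window Q j0 hQ2 hi wx.1 wx.2
  have sy := sc_window Q j0 hQ2 hj wy.1 wy.2
  have sz := sc_window Q j0 hQ2 hk wz.1 wz.2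
  have hij : i = j ∧ k = j := by
    rcases le_total i k with hik | hik
    · have e1 : k ≤ j := by
        rw [← sy]
        exact le_sc Q j0 hQ2 (by omega)
      have e2 : y ≤ max x z := by
        rcases le_total x z with h | h
        · rw [max_eq_right h]; omega
        · rw [max_eq_left h]; omega
      have e3 : j ≤ k := by
        rw [← sy]
        rcases le_total x z with h | h
        · rw [max_eq_right h] at e2
          have := sc_mono Q j0 hQ2 e2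
          omega
        · rw [max_eq_left h] at e2
          have := sc_mono Q j0 hQ2 e2
          omega
      have e4 : k = j := le_antisymm e1 e3
      subst e4
      have e5 : k ≤ i := by
        rw [← sx]
        exact le_sc Q j0 hQ2 (by omega)
      exact ⟨le_antisymm hik e5, rfl⟩
    · have e1 : i ≤ j := by
        rw [← sy]
        exact le_sc Q j0 hQ2 (by omega)
      have e2 : y ≤ max x z := by
        rcases le_total x z with h | h
        · rw [max_eq_right h]; omega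
        · rw [max_eq_left h]; omega
      have e3 : j ≤ i := by
        rw [← sy]
        rcases le_total x z with h | h
        · rw [max_eq_right h] at e2
          have := sc_mono Q j0 hQ2 e2
          omega
        · rw [max_eq_left h] at e2
          have := sc_mono Q j0 hQ2 e2
          omega
      have e4 : i = j := le_antisymm e1 e3
      subst e4
      have e5 : i ≤ k := by
        rw [← sz]
        exact le_sc Q j0 hQ2 (by omega)
      exact ⟨rfl, le_antisymm hik e5⟩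
  obtain ⟨rfl, rfl⟩ := hij
  exact hP5 k hk ⟨px, hpx, hx⟩ ⟨py, hpy, hy⟩ ⟨pz, hpz, hz⟩ hxyz

theorem limit_set {a b Q C c j0 : ℕ} {μ : ℕ → ℕ} {P : ℕ → Finset (Finset ℕ)}
    (ha : 1 ≤ a) (hb : 1 ≤ b) (hQ : Q = a * b + a + b) (hC : C = c + a + b + 4)
    (hj0 : a + b + 2 ≤ j0) (hμ : ∀ j, j0 ≤ j → μ j + (C + c) * j = a * b * j ^ 2)
    (H : Blocks a b Q C j0 μ P) :
    ∃ A : Set ℕ, (∀ n ∈ A, 1 ≤ n) ∧
      (∀ k : ℕ × (Fin a → ℕ) × (Fin b → ℕ),
        StrictMono (Fin.cons 0 k.2.1 : Fin (a+1) → ℕ) →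
        StrictMono (Fin.cons 0 k.2.2 : Fin (b+1) → ℕ) → ¬ ∀ i j, ent k i j ∈ A) ∧
      ∀ J, j0 ≤ J → ∃ F : Finset ℕ, (∀ n ∈ F, n ∈ A ∧ 2 * NN Q J ≤ n ∧ n < 3 * NN Q J) ∧
        2 ^ μ J ≤ 2 * F.card := by
  classical
  choose A hA1 hA2 hA3 using finite_set ha hb hQ hC hj0 hμ H
  refine ⟨{n | ∀ᶠ T in (Filter.hyperfilter ℕ : Filter ℕ), n ∈ A T}, ?_, ?_, ?_⟩
  · intro n hn
    obtain ⟨T, hT⟩ := hn.exists
    obtain ⟨j, hj, x, hx, hnx⟩ := hA1 T n hT
    have := (H.win j hj x hx n hnx).1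
    have := NN_pos Q j
    omega
  · intro k hu hv hk
    have : ∀ᶠ T in (Filter.hyperfilter ℕ : Filter ℕ), ∀ i j, ent k i j ∈ A T := by
      rw [Filter.eventually_all]
      intro i
      rw [Filter.eventually_all]
      intro j
      exact hk i j
    obtain ⟨T, hT⟩ := this.exists
    exact hA2 T k hu hv hT
  · intro J hJ
    have h1 : ∀ᶠ T in (Filter.hyperfilter ℕ : Filter ℕ), ∀ n ∈ Ico (2 * NN Q J) (3 * NN Q J),
        (n ∈ A T → ∀ᶠ T in (Filter.hyperfilter ℕ : Filter ℕ), n ∈ A T) := by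
      rw [Filter.eventually_all_finset]
      intro n _
      by_cases h : ∀ᶠ T in (Filter.hyperfilter ℕ : Filter ℕ), n ∈ A T
      · exact Filter.Eventually.of_forall fun _ _ => h
      · rw [← Ultrafilter.eventually_not] at h
        filter_upwards [h] with T hT hT'
        exact absurd hT' hT
    have h2 : ∀ᶠ T in (Filter.hyperfilter ℕ : Filter ℕ), J ≤ T :=
      (Filter.eventually_ge_atTop J).filter_mono Nat.hyperfilter_le_atTop
    obtain ⟨T, hT1, hT2⟩ := (h1.and h2).exists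
    refine ⟨(A T).filter (fun n => 2 * NN Q J ≤ n ∧ n < 3 * NN Q J), ?_, hA3 T J hJ hT2⟩
    intro n hn
    rw [mem_filter] at hn
    exact ⟨hT1 n (mem_Ico.2 hn.2) hn.1, hn.2⟩


/-- From a set with no bad configuration to a `C_h[g]` set in `ℤ`. -/
lemma no_config (a b : ℕ) (A : Set ℕ)
    (hA : ∀ k : ℕ × (Fin a → ℕ) × (Fin b → ℕ),
        StrictMono (Fin.cons 0 k.2.1 : Fin (a+1) → ℕ) →
        StrictMono (Fin.cons 0 k.2.2 : Fin (b+1) → ℕ) → ¬ ∀ i j, ent k i j ∈ A)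
    (X : Finset ℤ) (hX : X.card = a + 1) (k : Fin (b+1) → ℤ) (hk : Function.Injective k)
    (h : ∀ i, ∀ x ∈ X, x + k i ∈ ((fun n : ℕ => (n : ℤ)) '' A)) : False := by
  classical
  have hK : (univ.image k).card = b + 1 := by
    rw [card_image_of_injective _ hk, card_univ, Fintype.card_fin]
  set ξ := X.orderEmbOfFin hX with hξ
  set κ := (univ.image k).orderEmbOfFin hK with hκ
  have hmem : ∀ i j, ξ i + κ j ∈ ((fun n : ℕ => (n : ℤ)) '' A) := by
    intro i j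
    have h1 : ξ i ∈ X := orderEmbOfFin_mem X hX i
    have h2 : κ j ∈ univ.image k := orderEmbOfFin_mem _ hK j
    rw [mem_image] at h2
    obtain ⟨l, _, hl⟩ := h2
    rw [← hl]
    exact h l _ h1
  have hm0 : 0 ≤ ξ 0 + κ 0 := by
    obtain ⟨n, _, hn⟩ := hmem 0 0
    rw [← hn]
    exact Int.natCast_nonneg n
  set q : ℕ × (Fin a → ℕ) × (Fin b → ℕ) := ((ξ 0 + κ 0).toNat,
    (fun i => (ξ i.succ - ξ 0).toNat), (fun j => (κ j.succ - κ 0).toNat)) with hq
  have hu : ∀ i, (((Fin.cons 0 q.2.1 : Fin (a+1) → ℕ) i : ℕ) : ℤ) = ξ i - ξ 0 := by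
    intro i
    refine Fin.cases ?_ (fun i => ?_) i
    · simp
    · rw [Fin.cons_succ, hq]
      simp only
      rw [Int.toNat_of_nonneg]
      have : ξ 0 ≤ ξ i.succ := ξ.monotone (Fin.zero_le _)
      linarith
  have hv : ∀ j, (((Fin.cons 0 q.2.2 : Fin (b+1) → ℕ) j : ℕ) : ℤ) = κ j - κ 0 := by
    intro j
    refine Fin.cases ?_ (fun j => ?_) j
    · simp
    · rw [Fin.cons_succ, hq]
      simp only
      rw [Int.toNat_of_nonneg]
      have : κ 0 ≤ κ j.succ := κ.monotone (Fin.zero_le _)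
      linarith
  refine hA q ?_ ?_ ?_
  · intro i i' hii
    have h1 := hu i
    have h2 := hu i'
    have h3 : ξ i < ξ i' := ξ.strictMono hii
    zify
    linarith
  · intro i i' hii
    have h1 := hv i
    have h2 := hv i'
    have h3 : κ i < κ i' := κ.strictMono hii
    zify
    linarith
  · intro i j
    obtain ⟨n, hn, hnn⟩ := hmem i j
    have : ent q i j = n := by
      unfold ent
      zify
      rw [hu i, hv j]
      have h4 : ((q.1 : ℕ) : ℤ) = ξ 0 + κ 0 := by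
        rw [hq]
        simp only
        rw [Int.toNat_of_nonneg hm0]
      rw [h4]
      simp only at hnn
      rw [hnn]
      ring
    rw [this]
    exact hn

/-- Asymptotic comparison. -/
lemma asympt (a b Q D j0 : ℕ) (μ : ℕ → ℕ) (ha : 1 ≤ a) (hb : 1 ≤ b)
    (hQ : Q = a * b + a + b)
    (hμ : ∀ j, j0 ≤ j → μ j + D * j = a * b * j ^ 2)
    (α ε : ℝ) (hα : α * Q = a * b) (hε : 0 < ε)
    (f : ℕ → ℝ) (hf1 : ∀ n, ∀ J, j0 ≤ J → 3 * NN Q J ≤ n → (2 : ℝ) ^ μ J ≤ 2 * f n) :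
    ∀ᶠ n : ℕ in Filter.atTop, (n : ℝ) ^ (α - ε) ≤ f n := by
  have hQ2 : 2 ≤ Q := by nlinarith
  have hQpos : (0 : ℝ) < Q := by
    have : 0 < Q := by omega
    exact_mod_cast this
  have hab : (1 : ℝ) ≤ a * b := by
    have : 1 ≤ a * b := Nat.mul_pos ha hb
    exact_mod_cast this
  have hαpos : 0 < α := by
    by_contra hc
    push Not at hc
    nlinarith
  have hα1 : α ≤ 1 := by
    by_contra hc
    push Not at hc
    have : (Q : ℝ) = a * b + a + b := by rw [hQ]; push_cast; ring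
    have ha' : (0 : ℝ) ≤ a := by positivity
    have hb' : (0 : ℝ) ≤ b := by positivity
    nlinarith
  set ε' := min ε α with hε'
  have hε'pos : 0 < ε' := lt_min hε hαpos
  have hε'α : ε' ≤ α := min_le_right _ _
  -- the threshold for the scale
  obtain ⟨s1, hs1⟩ := exists_nat_ge ((2 * a * b + D + 3 : ℝ) / ε')
  have hs1' : (2 * a * b + D + 3 : ℝ) ≤ ε' * s1 := by
    rw [div_le_iff₀ hε'pos] at hs1
    linarith
  filter_upwards [Filter.eventually_ge_atTop (3 * NN Q (max (j0 + 1) (s1 + 1)))] with n hn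
  set s := sc Q j0 n with hs
  have hspec := sc_spec Q j0 hQ2 n
  rw [← hs] at hspec
  have hsge : max (j0 + 1) (s1 + 1) ≤ s := by
    by_contra hc
    push Not at hc
    have := NN_mono Q hc.le
    omega
  have hsj0 : j0 + 1 ≤ s := le_trans (le_max_left _ _) hsge
  have hss1 : s1 + 1 ≤ s := le_trans (le_max_right _ _) hsge
  obtain ⟨J, hJ⟩ : ∃ J, s = J + 1 := ⟨s - 1, by omega⟩
  have hJ0 : j0 ≤ J := by omega
  have hJn : 3 * NN Q J ≤ n := by
    by_contra hc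
    push Not at hc
    have : s ≤ J := sc_le hJ0 hc
    omega
  have hf := hf1 n J hJ0 hJn
  have hn1 : 1 ≤ n := by
    have := NN_pos Q J
    omega
  have hn1' : (1 : ℝ) ≤ n := by exact_mod_cast hn1
  have e1 : (n : ℝ) ^ (α - ε) ≤ (n : ℝ) ^ (α - ε') :=
    Real.rpow_le_rpow_of_exponent_le hn1' (by linarith [min_le_left ε α])
  have e2 : (n : ℝ) ≤ 2 ^ ((Q * s ^ 2 + 2 : ℕ) : ℝ) := by
    rw [Real.rpow_natCast]
    have : n ≤ 2 ^ (Q * s ^ 2 + 2) := by
      have h1 := hspec.2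
      unfold NN at h1
      rw [pow_add]
      omega
    exact_mod_cast this
  have e3 : (n : ℝ) ^ (α - ε') ≤ 2 ^ (((Q * s ^ 2 + 2 : ℕ) : ℝ) * (α - ε')) := by
    rw [Real.rpow_mul (by norm_num)]
    exact Real.rpow_le_rpow (by positivity) e2 (by linarith)
  have e4 : ((Q * s ^ 2 + 2 : ℕ) : ℝ) * (α - ε') ≤ (μ J : ℝ) - 1 := by
    have h1 : (μ J : ℝ) + D * J = a * b * J ^ 2 := by exact_mod_cast hμ J hJ0
    have h2 : (μ J : ℝ) = a * b * J ^ 2 - D * J := by linarith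
    rw [h2]
    have h3 : (s : ℝ) = J + 1 := by rw [hJ]; push_cast; ring
    push_cast
    rw [h3]
    have h4 : (s1 : ℝ) ≤ J := by
      have : s1 ≤ J := by omega
      exact_mod_cast this
    have h5 : (2 * a * b + D + 3 : ℝ) ≤ ε' * J := by nlinarith
    have hJpos : (0 : ℝ) ≤ J := by positivity
    have hD : (0 : ℝ) ≤ D := by positivity
    have h6 : (2 * a * b + D + 3 : ℝ) * (J + 1) ≤ ε' * J * (J + 1) := by
      apply mul_le_mul_of_nonneg_right h5
      linarith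
    have h7 : ε' * J * (J + 1) ≤ ε' * (Q * (J + 1) ^ 2 + 2) := by
      have hQ1 : (1 : ℝ) ≤ Q := by
        have : 1 ≤ Q := by omega
        exact_mod_cast this
      have : (J : ℝ) * (J + 1) ≤ Q * (J + 1) ^ 2 + 2 := by nlinarith
      nlinarith
    have h8 : (Q * (J + 1) ^ 2 + 2) * (α - ε')
        = a * b * (J + 1) ^ 2 + 2 * α - ε' * (Q * (J + 1) ^ 2 + 2) := by
      rw [← hα]
      ring
    rw [h8]
    have h9 : (a : ℝ) * b * (J + 1) ^ 2 = a * b * J ^ 2 + 2 * (a * b * J) + a * b := by ring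
    have h10 : (2 * a * b + D + 3 : ℝ) * (J + 1)
        = 2 * (a * b * J) + 2 * (a * b) + D * J + D + 3 * J + 3 := by ring
    rw [h9]
    rw [h10] at h6
    linarith
  have e5 : (2 : ℝ) ^ (((Q * s ^ 2 + 2 : ℕ) : ℝ) * (α - ε')) ≤ 2 ^ ((μ J : ℝ) - 1) :=
    Real.rpow_le_rpow_of_exponent_le (by norm_num) e4
  have e6 : (2 : ℝ) ^ ((μ J : ℝ) - 1) = 2 ^ μ J / 2 := by
    rw [Real.rpow_sub (by norm_num), Real.rpow_natCast, Real.rpow_one]
  calc (n : ℝ) ^ (α - ε) ≤ 2 ^ μ J / 2 := by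
        rw [← e6]
        exact e1.trans (e3.trans e5)
    _ ≤ f n := by linarith

theorem main (a b : ℕ) (ha : 1 ≤ a) (hb : 1 ≤ b) :
    ∃ A : Set ℤ, A ⊆ {n : ℤ | 1 ≤ n} ∧ A.Infinite ∧
      (∀ X : Finset ℤ, X.card = a + 1 → ∀ k : Fin (b + 1) → ℤ, Function.Injective k →
          ¬ (∀ i : Fin (b + 1), ∀ x ∈ X, x + k i ∈ A)) ∧
      ∀ α ε : ℝ, α * (a * b + a + b) = a * b → 0 < ε →
        ∀ᶠ n : ℕ in Filter.atTop, (n : ℝ) ^ (α - ε)
          ≤ ((A ∩ Set.Icc (1 : ℤ) (n : ℤ)).ncard : ℝ) := by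
  classical
  set Q := a * b + a + b with hQ
  have hQ2 : 2 ≤ Q := by nlinarith
  obtain ⟨c, hc⟩ := behrend_const Q
  set C := c + a + b + 4 with hC
  set j0 := a + b + 2 + C + c with hj0
  set μ : ℕ → ℕ := fun j => a * b * j ^ 2 - (C + c) * j with hμdef
  have hμ : ∀ j, j0 ≤ j → μ j + (C + c) * j = a * b * j ^ 2 := by
    intro j hj
    rw [hμdef]
    simp only
    apply Nat.sub_add_cancel
    have h1 : C + c ≤ j := by omega
    have h2 : 1 ≤ a * b := Nat.mul_pos ha hb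
    calc (C + c) * j ≤ j * j := Nat.mul_le_mul_right _ h1
      _ = 1 * j ^ 2 := by ring
      _ ≤ a * b * j ^ 2 := Nat.mul_le_mul_right _ h2
  obtain ⟨P, H⟩ := exists_blocks a b Q C c j0 μ ha hb hQ hμ hc
  obtain ⟨A, hA1, hA2, hA3⟩ := limit_set ha hb hQ hC (by omega) hμ H
  have hcount : ∀ n : ℕ, ∀ J, j0 ≤ J → 3 * NN Q J ≤ n →
      (2 : ℝ) ^ μ J ≤ 2 * ((((fun n : ℕ => (n : ℤ)) '' A) ∩ Set.Icc (1 : ℤ) (n : ℤ)).ncard : ℝ) := by
    intro n J hJ hn
    obtain ⟨F, hF1, hF2⟩ := hA3 J hJ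
    have h1 : F.card ≤ (((fun n : ℕ => (n : ℤ)) '' A) ∩ Set.Icc (1 : ℤ) (n : ℤ)).ncard := by
      rw [← card_image_of_injective F (f := fun n : ℕ => (n : ℤ)) (fun x y h => by simpa using h)]
      rw [← Set.ncard_coe_finset]
      apply Set.ncard_le_ncard
      · intro z hz
        rw [mem_coe, mem_image] at hz
        obtain ⟨m, hm, rfl⟩ := hz
        obtain ⟨h2, h3, h4⟩ := hF1 m hm
        have h5 := hA1 m h2
        refine ⟨⟨m, h2, rfl⟩, ?_⟩
        simp only [Set.mem_Icc]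
        constructor
        · exact_mod_cast h5
        · have : m ≤ n := by omega
          exact_mod_cast this
      · exact (Set.finite_Icc _ _).subset Set.inter_subset_right
    have h6 : 2 ^ μ J ≤ 2 * (((fun n : ℕ => (n : ℤ)) '' A) ∩ Set.Icc (1 : ℤ) (n : ℤ)).ncard := by
      omega
    exact_mod_cast h6
  have hev : ∀ α ε : ℝ, α * (a * b + a + b) = a * b → 0 < ε →
        ∀ᶠ n : ℕ in Filter.atTop, (n : ℝ) ^ (α - ε)
          ≤ ((((fun n : ℕ => (n : ℤ)) '' A) ∩ Set.Icc (1 : ℤ) (n : ℤ)).ncard : ℝ) := by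
    intro α ε hα hε
    refine asympt a b Q (C + c) j0 μ ha hb hQ hμ α ε ?_ hε _ hcount
    rw [hQ]
    push_cast
    exact hα
  refine ⟨(fun n : ℕ => (n : ℤ)) '' A, ?_, ?_, ?_, hev⟩
  · rintro z ⟨n, hn, rfl⟩
    have := hA1 n hn
    show (1 : ℤ) ≤ (n : ℤ)
    exact_mod_cast this
  · intro hfin
    -- counting function unbounded
    have hQpos : (0 : ℝ) < a * b + a + b := by positivity
    have h1 := hev ((a * b : ℝ) / (a * b + a + b)) ((a * b : ℝ) / (a * b + a + b) / 2)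
      (by field_simp) (by positivity)
    have h2 : Filter.Tendsto (fun n : ℕ => (n : ℝ) ^ ((a * b : ℝ) / (a * b + a + b)
        - (a * b : ℝ) / (a * b + a + b) / 2)) Filter.atTop Filter.atTop := by
      refine (tendsto_rpow_atTop ?_).comp tendsto_natCast_atTop_atTop
      have : (0 : ℝ) < (a * b : ℝ) / (a * b + a + b) := by positivity
      linarith
    have h3 := h2.eventually_gt_atTop ((((fun n : ℕ => (n : ℤ)) '' A).ncard : ℕ) : ℝ)
    obtain ⟨n, hn1, hn2⟩ := (h1.and h3).exists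
    have h4 : (((fun n : ℕ => (n : ℤ)) '' A) ∩ Set.Icc (1 : ℤ) (n : ℤ)).ncard
        ≤ ((fun n : ℕ => (n : ℤ)) '' A).ncard := Set.ncard_le_ncard Set.inter_subset_left hfin
    have h5 : ((((fun n : ℕ => (n : ℤ)) '' A) ∩ Set.Icc (1 : ℤ) (n : ℤ)).ncard : ℝ)
        ≤ (((fun n : ℕ => (n : ℤ)) '' A).ncard : ℝ) := by exact_mod_cast h4
    linarith
  · intro X hX k hk h
    exact no_config a b A hA2 X hX k hk h

end Pool.Agent.CHG
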